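import Mathlib
import Pool.Agent.MP_d0d5df_co.Lower

set_option autoImplicit false

open Pool.Agent.MP_d0d5df_co

/-- There are a finite connected loopless multigraph `G` and an odd `k` such that the
`k`-regular subdivision of `G` has smaller divisorial gonality than `G`. -/
theorem Pool.Agent.Results.MP_d0d5df_co.OddSubdivision.result :
    ∃ (n m : ℕ) (G : MGraph (Fin n) (Fin m)) (k : ℕ),
      Loopless G ∧ IsConnected G ∧ Odd k ∧ dgon (subdiv G k) < dgon G :=
  ⟨13, 82, exG, 3, exG_loopless, exG_connected, by decide, lt_of_le_of_lt upper lower⟩
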